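import Pool.Agent.Lib.MP_88887c_co.Link

set_option autoImplicit false
set_option linter.unusedVariables false

/-!
# Tree bootstrap percolation: `M*(t)` grows faster than linearly, so `M*(t) = t - 1` is false

`SimpleGraph.copyCount G H` (Mathlib) is the number `n_H(G)` of subgraphs of `G` isomorphic to `H`.
-/

namespace Pool.Agent.Results.MP_88887c_co.Superlinear

open SimpleGraph Filter

/-- One round of the `H`-process: `E(G_{i+1})` is `E(G_i)` together with all pairs `e` such that
`n_H(G_i + e) > n_H(G_i)`. -/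
noncomputable def nextGraph {α V : Type*} [Fintype V] (H : SimpleGraph α) (G : SimpleGraph V) :
    SimpleGraph V :=
  G ⊔ fromEdgeSet {e : Sym2 V | G.copyCount H < (G ⊔ fromEdgeSet {e}).copyCount H}

/-- The `H`-process `(G_i)` on `G`. -/
noncomputable def process {α V : Type*} [Fintype V] (H : SimpleGraph α) (G : SimpleGraph V) :
    ℕ → SimpleGraph V
  | 0 => G
  | i + 1 => nextGraph H (process H G i)

/-- The running time `τ_H(G) = min {s : G_s = G_{s+1}}`. -/
noncomputable def runningTime {α V : Type*} [Fintype V] (H : SimpleGraph α) (G : SimpleGraph V) :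
    ℕ :=
  sInf {s : ℕ | process H G s = process H G (s + 1)}

/-- The maximum running time `M_H(n)` over all graphs on `n` vertices. -/
noncomputable def maxRunningTime {α : Type*} (H : SimpleGraph α) (n : ℕ) : ℕ :=
  sSup (Set.range fun G : SimpleGraph (Fin n) => runningTime H G)

/-- `M*(t)`: the maximum over all trees `T` on `t` vertices of `limsup_n M_T(n)`. -/
noncomputable def Mstar (t : ℕ) : ℕ∞ :=
  ⨆ (T : SimpleGraph (Fin t)) (_ : T.IsTree), limsup (fun n => (maxRunningTime T n : ℕ∞)) atTop

section aux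
variable {α V : Type*} [Fintype V] (H : SimpleGraph α) (G : SimpleGraph V)

theorem le_nextGraph : G ≤ nextGraph H G := le_sup_left

theorem process_mono : Monotone (process H G) :=
  monotone_nat_of_le_succ fun i => le_nextGraph H _

theorem runningTime_set_nonempty :
    {s : ℕ | process H G s = process H G (s + 1)}.Nonempty := by
  have hfin : Finite (SimpleGraph V) :=
    Finite.of_injective (fun G : SimpleGraph V => G.Adj) (fun G G' h => SimpleGraph.ext h)
  obtain ⟨n, hn⟩ := WellFoundedGT.monotone_chain_condition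
    (⟨process H G, process_mono H G⟩ : ℕ →o SimpleGraph V)
  exact ⟨n, hn (n + 1) (Nat.le_succ n)⟩

theorem le_runningTime {N : ℕ} (h : ∀ i < N, process H G (i + 1) ≠ process H G i) :
    N ≤ runningTime H G := by
  refine le_csInf (runningTime_set_nonempty H G) ?_
  intro s hs
  by_contra hc
  exact h s (by omega) (Eq.symm hs)

theorem le_maxRunningTime {n : ℕ} (G : SimpleGraph (Fin n)) :
    runningTime H G ≤ maxRunningTime H n := by
  have hfin : Finite (SimpleGraph (Fin n)) :=
    Finite.of_injective (fun G : SimpleGraph (Fin n) => G.Adj) (fun G G' h => SimpleGraph.ext h)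
  exact le_csSup (Set.finite_range _).bddAbove ⟨G, rfl⟩

end aux

/-- For every `K` and all large `t` there is a tree `T` on `t` vertices with `M_T(n) ≥ K t` for all
large `n`. -/
theorem exists_tree (K : ℕ) : ∃ t0 : ℕ, ∀ t ≥ t0, ∃ T : SimpleGraph (Fin t), T.IsTree ∧
    ∃ n0 : ℕ, ∀ n ≥ n0, K * t ≤ maxRunningTime T n := by
  obtain ⟨t0, ht0⟩ := Pool.Agent.Lib.MP_88887c_co.main_construction K
  refine ⟨t0, fun t ht => ?_⟩
  obtain ⟨T, hT, n0, hn0⟩ := ht0 t ht
  refine ⟨T, hT, n0, fun n hn => ?_⟩
  obtain ⟨G, hG1, hG2⟩ := hn0 n hn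
  have hG : ∀ i, process T (G 0) i = G i := by
    intro i
    induction i with
    | zero => rfl
    | succ i ih =>
      rw [hG1, process, ih, nextGraph, Pool.Agent.Lib.MP_88887c_co.next_eq_stepN]
  refine le_trans (le_runningTime T (G 0) ?_) (le_maxRunningTime T (G 0))
  intro i hi
  rw [hG, hG]
  exact hG2 i hi

/-- **Superlinear growth of `M*(t)`.** For every `K`, `M*(t) ≥ K t` for all sufficiently large `t`.
In particular (`K = 1`) `M*(t) = t - 1` fails for all sufficiently large `t`. -/
theorem result : ∀ K : ℕ, ∀ᶠ t : ℕ in atTop, ((K * t : ℕ) : ℕ∞) ≤ Mstar t := by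
  intro K
  obtain ⟨t0, ht0⟩ := exists_tree K
  filter_upwards [eventually_ge_atTop t0] with t ht
  obtain ⟨T, hT, n0, hn0⟩ := ht0 t ht
  refine le_trans ?_ (le_iSup₂ (f := fun (T : SimpleGraph (Fin t)) (_ : T.IsTree) =>
    limsup (fun n => (maxRunningTime T n : ℕ∞)) atTop) T hT)
  refine le_limsup_of_frequently_le' ?_
  refine Eventually.frequently ?_
  filter_upwards [eventually_ge_atTop n0] with n hn
  exact_mod_cast hn0 n hn

/-- The conjectured equality is false. -/
theorem conjecture_false : ¬ ∀ t : ℕ, 0 < t → Mstar t = ((t - 1 : ℕ) : ℕ∞) := by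
  intro h
  obtain ⟨t, ht1, ht2⟩ := ((result 1).and (eventually_gt_atTop 0)).exists
  rw [h t ht2] at ht1
  have : 1 * t ≤ t - 1 := by exact_mod_cast ht1
  omega

end Pool.Agent.Results.MP_88887c_co.Superlinear
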